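import Pool.Agent.helper18.FinAdj
import Pool.Agent.Helper93.Fin.Spaces

/-!
# Module Sp3a: the Lie algebras of `Sp(3)` and of `H`
-/

noncomputable section

namespace Pool.Agent.Helper93.Fin

open scoped ContDiff Quaternion Matrix

attribute [local instance] Matrix.linftyOpNormedRing Matrix.linftyOpNormedAlgebra

namespace Sp3

/-- the Lie algebra of `Sp(3)` -/
def gg : Submodule ℝ Mat where
  carrier := {X | star X = -X}
  zero_mem' := by simp
  add_mem' := by
    intro X Y h1 h2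
    simp only [Set.mem_ofPred_eq] at *
    rw [star_add, h1, h2]; abel
  smul_mem' := by
    intro c X h1
    simp only [Set.mem_ofPred_eq] at *
    ext i j : 1
    have := congrFun (congrFun h1 i) j
    simp only [Matrix.star_apply, Matrix.neg_apply] at this
    rw [Matrix.star_apply, Matrix.neg_apply, Matrix.smul_apply, Matrix.smul_apply, ← smul_neg,
      ← this]
    exact Quaternion.star_smul c (X j i)

/-- purely imaginary complex number as a quaternion -/
def iq (θ : ℝ) : ℍ[ℝ] := ⟨0, θ, 0, 0⟩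

@[simp] theorem iq_re (θ : ℝ) : (iq θ).re = 0 := rfl
@[simp] theorem iq_imI (θ : ℝ) : (iq θ).imI = θ := rfl
@[simp] theorem iq_imJ (θ : ℝ) : (iq θ).imJ = 0 := rfl
@[simp] theorem iq_imK (θ : ℝ) : (iq θ).imK = 0 := rfl
@[simp] theorem iq_zero : iq 0 = 0 := rfl

/-- the Lie algebra of `H` -/
def hh : Submodule ℝ Mat where
  carrier := {X | ∃ (θ : ℝ) (q : ℍ[ℝ]), q.re = 0 ∧ X = Matrix.diagonal ![iq θ, iq θ, q]}
  zero_mem' := ⟨0, 0, by simp, by
    ext i j : 1
    fin_cases i <;> fin_cases j <;> simp⟩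
  add_mem' := by
    rintro _ _ ⟨θ, q, hq, rfl⟩ ⟨θ', q', hq', rfl⟩
    refine ⟨θ + θ', q + q', by simp [hq, hq'], ?_⟩
    rw [Matrix.diagonal_add]
    congr 1
    funext i
    fin_cases i
    · ext <;> simp
    · ext <;> simp
    · simp
  smul_mem' := by
    rintro c _ ⟨θ, q, hq, rfl⟩
    refine ⟨c * θ, c • q, by simp [hq], ?_⟩
    rw [← Matrix.diagonal_smul]
    congr 1
    funext i
    fin_cases i
    · ext <;> simp
    · ext <;> simp
    · simp

theorem mem_gg' {X : Mat} : X ∈ gg ↔ star X = -X := Iff.rfl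

theorem mem_hh' {X : Mat} : X ∈ hh ↔
    ∃ (θ : ℝ) (q : ℍ[ℝ]), q.re = 0 ∧ X = Matrix.diagonal ![iq θ, iq θ, q] := Iff.rfl

theorem mem_m' {X : Mat} : X ∈ m ↔ star X = -X ∧ X 2 2 = 0 ∧ (X 0 0).imI + (X 1 1).imI = 0 :=
  Iff.rfl

/-- the exponential function of a normed algebra -/
abbrev nexp {𝔸 : Type*} [NormedRing 𝔸] [NormedAlgebra ℝ 𝔸] (X : 𝔸) : 𝔸 := NormedSpace.exp X

theorem nexp_mul_neg {𝔸 : Type*} [NormedRing 𝔸] [NormedAlgebra ℝ 𝔸] [CompleteSpace 𝔸] (X : 𝔸) :
    nexp X * nexp (-X) = 1 := by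
  let _ : NormedAlgebra ℚ 𝔸 := NormedAlgebra.restrictScalars ℚ ℝ 𝔸
  rw [nexp, nexp, ← NormedSpace.exp_add_of_commute (Commute.neg_right (Commute.refl X)),
    add_neg_cancel, NormedSpace.exp_zero]

theorem nexp_neg_mul {𝔸 : Type*} [NormedRing 𝔸] [NormedAlgebra ℝ 𝔸] [CompleteSpace 𝔸] (X : 𝔸) :
    nexp (-X) * nexp X = 1 := by
  have := nexp_mul_neg (-X)
  rwa [neg_neg] at this

theorem nexp_zero {𝔸 : Type*} [NormedRing 𝔸] [NormedAlgebra ℝ 𝔸] : nexp (0 : 𝔸) = 1 := by
  rw [nexp, NormedSpace.exp_zero]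

theorem hasDerivAt_nexp {𝔸 : Type*} [NormedRing 𝔸] [NormedAlgebra ℝ 𝔸] [CompleteSpace 𝔸]
    (X : 𝔸) : HasDerivAt (fun t : ℝ => nexp (t • X)) X 0 := by
  have h1 : HasDerivAt (fun t : ℝ => NormedSpace.exp (t • X))
      (NormedSpace.exp ((0 : ℝ) • X) * X) 0 := hasDerivAt_exp_smul_const X 0
  rwa [zero_smul, NormedSpace.exp_zero, one_mul] at h1

theorem star_nexp (X : Mat) : star (nexp X) = nexp (star X) :=
  (Matrix.exp_conjTranspose X).symm

theorem nexp_diag (v : Fin 3 → ℍ[ℝ]) :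
    nexp (Matrix.diagonal v : Mat) = Matrix.diagonal (fun i => NormedSpace.exp (v i)) := by
  have h1 : nexp (Matrix.diagonal v : Mat) = Matrix.diagonal (NormedSpace.exp v) :=
    Matrix.exp_diagonal v
  rw [h1]
  let _ : NormedAlgebra ℚ ℍ[ℝ] := NormedAlgebra.restrictScalars ℚ ℝ ℍ[ℝ]
  rw [Pi.exp_def]

theorem lin_zero {F : Type*} [NormedAddCommGroup F] [NormedSpace ℝ F] (X : Mat)
    (l : Mat →ₗ[ℝ] F) (h : ∀ t : ℝ, l (nexp (t • X)) = 0) : l X = 0 := by
  have h1 : HasDerivAt (fun t : ℝ => nexp (t • X)) X 0 := hasDerivAt_nexp X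
  have h2 := (LinearMap.toContinuousLinearMap l).hasFDerivAt.comp_hasDerivAt 0 h1
  have h3 : (⇑(LinearMap.toContinuousLinearMap l) ∘ fun t : ℝ => nexp (t • X)) =
      fun _ => 0 := by
    funext t; exact h t
  rw [h3] at h2
  exact h2.unique (hasDerivAt_const (0 : ℝ) (0 : F))

/-- `exp X` as a unit -/
def expU (X : Mat) : Matˣ := ⟨nexp X, nexp (-X), nexp_mul_neg X, nexp_neg_mul X⟩

theorem star_smul_mat (t : ℝ) (X : Mat) : star (t • X) = t • star X := by
  ext i j : 1
  rw [Matrix.star_apply, Matrix.smul_apply, Matrix.smul_apply, Matrix.star_apply]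
  exact Quaternion.star_smul t (X j i)

theorem mem_gg (X : Mat) : X ∈ gg ↔ X ∈ lieAlg G := by
  constructor
  · intro h t
    refine ⟨expU (t • X), ?_, rfl⟩
    show star (nexp (t • X)) * nexp (t • X) = 1
    have h1 : star (t • X) = -(t • X) := gg.smul_mem t h
    rw [star_nexp, h1, nexp_neg_mul]
  · intro h
    have h1 : ∀ t : ℝ, nexp (t • star X) = nexp (t • (-X)) := by
      intro t
      obtain ⟨g, hg, hgX⟩ := h t
      have hgX' : (g : Mat) = nexp (t • X) := hgX
      have hg0 : star (g : Mat) * (g : Mat) = 1 := hg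
      rw [hgX', star_nexp, star_smul_mat] at hg0
      have h3 : nexp (t • star X) * (nexp (t • X) * nexp (-(t • X))) = nexp (-(t • X)) := by
        rw [← mul_assoc, hg0, one_mul]
      rw [nexp_mul_neg, mul_one] at h3
      rw [h3, smul_neg]
    have hd := hasDerivAt_nexp (star X)
    have hd' := hasDerivAt_nexp (-X)
    have h4 : (fun t : ℝ => nexp (t • star X)) = fun t : ℝ => nexp (t • (-X)) := funext h1
    rw [h4] at hd
    exact hd.unique hd'

theorem norm_coeC (z : ℂ) : ‖(z : ℍ[ℝ])‖ = ‖z‖ := by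
  have h1 : ‖(z : ℍ[ℝ])‖ * ‖(z : ℍ[ℝ])‖ = ‖z‖ * ‖z‖ := by
    rw [← Quaternion.normSq_eq_norm_mul_self, ← pow_two, ← Complex.normSq_eq_norm_sq,
      Complex.normSq_apply, Quaternion.normSq_def']
    simp
    ring
  exact (mul_self_inj (norm_nonneg _) (norm_nonneg _)).mp h1

theorem star_of_mem_H {g : Matˣ} (hg : g ∈ H) : star (g : Mat) * (g : Mat) = 1 := by
  obtain ⟨z, q, hz, hq, h⟩ := hg
  rw [h, dg, Matrix.star_eq_conjTranspose, Matrix.diagonal_conjTranspose,
    Matrix.diagonal_mul_diagonal, ← Matrix.diagonal_one]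
  congr 1
  have hz' : star ((z : ℂ) : ℍ[ℝ]) * (z : ℍ[ℝ]) = 1 := by
    rw [Quaternion.star_mul_self]
    have : Quaternion.normSq ((z : ℂ) : ℍ[ℝ]) = 1 := by
      rw [Quaternion.normSq_eq_norm_mul_self, norm_coeC, hz, one_mul]
    rw [this]; simp
  have hq' : star q * q = 1 := by
    rw [Quaternion.star_mul_self]
    have : Quaternion.normSq q = 1 := by
      rw [Quaternion.normSq_eq_norm_mul_self, hq, one_mul]
    rw [this]; simp
  funext i
  fin_cases i
  · exact hz'
  · exact hz'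
  · exact hq'

theorem H_le : H ≤ G := fun _ hg => star_of_mem_H hg

theorem inv_of_mem_H {g : Matˣ} (hg : g ∈ H) : ((g⁻¹ : Matˣ) : Mat) = star (g : Mat) := by
  exact (Units.mul_eq_one_iff_eq_inv.mp (star_of_mem_H hg)).symm

/-- entry as a linear map -/
def ent (i j : Fin 3) : Mat →ₗ[ℝ] ℍ[ℝ] where
  toFun X := X i j
  map_add' _ _ := rfl
  map_smul' _ _ := rfl

/-- component functionals of quaternions -/
def cJ : ℍ[ℝ] →ₗ[ℝ] ℝ where
  toFun q := q.imJ
  map_add' _ _ := rfl
  map_smul' _ _ := rfl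

/-- component functionals of quaternions -/
def cK : ℍ[ℝ] →ₗ[ℝ] ℝ where
  toFun q := q.imK
  map_add' _ _ := rfl
  map_smul' _ _ := rfl

theorem dg_apply_ne (z : ℂ) (q : ℍ[ℝ]) {i j : Fin 3} (h : i ≠ j) : dg z q i j = 0 := by
  rw [dg, Matrix.diagonal_apply_ne _ h]

theorem mem_hh (X : Mat) : X ∈ hh ↔ X ∈ lieAlg H := by
  constructor
  · rintro ⟨θ, q, hq, rfl⟩ t
    have he : nexp (t • Matrix.diagonal ![iq θ, iq θ, q] : Mat) =
        Matrix.diagonal ![NormedSpace.exp (t • iq θ), NormedSpace.exp (t • iq θ),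
          NormedSpace.exp (t • q)] := by
      rw [← Matrix.diagonal_smul, nexp_diag]
      congr 1
      funext i
      fin_cases i <;> rfl
    have hre : (t • iq θ).re = 0 := by simp
    have hn : ‖NormedSpace.exp (t • iq θ)‖ = 1 := by
      rw [Quaternion.norm_exp, hre, NormedSpace.exp_zero]; simp
    have hn' : ‖NormedSpace.exp (t • q)‖ = 1 := by
      have : (t • q).re = 0 := by simp [hq]
      rw [Quaternion.norm_exp, this, NormedSpace.exp_zero]; simp
    have hz : (((⟨(NormedSpace.exp (t • iq θ)).re, (NormedSpace.exp (t • iq θ)).imI⟩ : ℂ)) :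
        ℍ[ℝ]) = NormedSpace.exp (t • iq θ) := by
      have h := Quaternion.exp_of_re_eq_zero (t • iq θ) hre
      ext
      · rfl
      · rfl
      · rw [h]; simp
      · rw [h]; simp
    refine ⟨expU (t • Matrix.diagonal ![iq θ, iq θ, q] : Mat),
      ⟨⟨(NormedSpace.exp (t • iq θ)).re, (NormedSpace.exp (t • iq θ)).imI⟩,
        NormedSpace.exp (t • q), ?_, hn', ?_⟩, rfl⟩
    · rw [← norm_coeC, hz, hn]
    · show nexp (t • Matrix.diagonal ![iq θ, iq θ, q] : Mat) = _
      rw [he, dg, hz]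
  · intro h
    have hX : star X = -X := (mem_gg X).mpr fun t => by
      obtain ⟨g, hg, hgX⟩ := h t
      exact ⟨g, H_le hg, hgX⟩
    have hoff : ∀ i j : Fin 3, i ≠ j → X i j = 0 := by
      intro i j hij
      apply lin_zero X (ent i j)
      intro t
      obtain ⟨g, ⟨z, q, -, -, hg⟩, hgX⟩ := h t
      have hgX' : (g : Mat) = nexp (t • X) := hgX
      rw [← hgX', hg]
      exact dg_apply_ne z q hij
    have h01 : X 0 0 = X 1 1 := by
      have : (ent 0 0 - ent 1 1) X = 0 := by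
        apply lin_zero X (ent 0 0 - ent 1 1)
        intro t
        obtain ⟨g, ⟨z, q, -, -, hg⟩, hgX⟩ := h t
        have hgX' : (g : Mat) = nexp (t • X) := hgX
        rw [← hgX', hg]
        simp [ent, dg]
      rw [LinearMap.sub_apply] at this
      exact sub_eq_zero.mp this
    have hJ : (X 0 0).imJ = 0 := by
      apply lin_zero X (cJ ∘ₗ ent 0 0)
      intro t
      obtain ⟨g, ⟨z, q, -, -, hg⟩, hgX⟩ := h t
      have hgX' : (g : Mat) = nexp (t • X) := hgX
      rw [← hgX', hg]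
      simp [ent, dg, cJ]
    have hK : (X 0 0).imK = 0 := by
      apply lin_zero X (cK ∘ₗ ent 0 0)
      intro t
      obtain ⟨g, ⟨z, q, -, -, hg⟩, hgX⟩ := h t
      have hgX' : (g : Mat) = nexp (t • X) := hgX
      rw [← hgX', hg]
      simp [ent, dg, cK]
    have hre : ∀ i, (X i i).re = 0 := by
      intro i
      have h1 := congrFun (congrFun hX i) i
      rw [Matrix.star_apply, Matrix.neg_apply] at h1
      have h2 := congrArg QuaternionAlgebra.re h1
      simp at h2
      linarith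
    refine ⟨(X 0 0).imI, X 2 2, hre 2, ?_⟩
    have h00 : X 0 0 = iq (X 0 0).imI := by
      ext
      · simpa using hre 0
      · rfl
      · simpa using hJ
      · simpa using hK
    ext i j : 1
    by_cases hij : i = j
    · subst hij
      rw [Matrix.diagonal_apply_eq]
      fin_cases i
      · exact h00
      · exact h01.symm.trans h00
      · rfl
    · rw [hoff i j hij, Matrix.diagonal_apply_ne _ hij]

/-- `iq` as a linear map -/
def iqL : ℝ →ₗ[ℝ] ℍ[ℝ] where
  toFun := iq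
  map_add' x y := by ext <;> simp
  map_smul' c x := by ext <;> simp

/-- the part removed by the projection -/
def rem (X : Mat) : Mat := Matrix.diagonal
    ![iq (((X 0 0).imI + (X 1 1).imI) / 2), iq (((X 0 0).imI + (X 1 1).imI) / 2),
      (1 / 2 : ℝ) • (X 2 2 - star (X 2 2))]

/-- the projection, on all matrices -/
def proj (X : Mat) : Mat := (1 / 2 : ℝ) • (X - star X) - rem X

theorem rem_add (X Y : Mat) : rem (X + Y) = rem X + rem Y := by
  rw [rem, rem, rem, Matrix.diagonal_add]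
  congr 1
  funext i
  fin_cases i
  · ext <;> simp; ring
  · ext <;> simp; ring
  · ext <;> simp <;> ring

theorem rem_smul (c : ℝ) (X : Mat) : rem (c • X) = c • rem X := by
  rw [rem, rem, ← Matrix.diagonal_smul]
  congr 1
  funext i
  fin_cases i
  · ext <;> simp; ring
  · ext <;> simp; ring
  · ext <;> simp <;> ring

/-- the projection as a linear map -/
def projL : Mat →ₗ[ℝ] Mat where
  toFun := proj
  map_add' X Y := by
    rw [proj, proj, proj, rem_add, star_add]
    module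
  map_smul' c X := by
    rw [proj, proj, rem_smul, star_smul_mat, RingHom.id_apply]
    module

theorem rem_star (X : Mat) : star (rem X) = -rem X := by
  rw [rem, Matrix.star_eq_conjTranspose, Matrix.diagonal_conjTranspose, Matrix.diagonal_neg]
  congr 1
  funext i
  fin_cases i
  · ext <;> simp
  · ext <;> simp
  · ext <;> simp <;> ring

theorem projL_mem (X : Mat) : projL X ∈ m := by
  refine ⟨?_, ?_, ?_⟩
  · show star ((1 / 2 : ℝ) • (X - star X) - rem X) = -((1 / 2 : ℝ) • (X - star X) - rem X)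
    rw [star_sub, rem_star, star_smul_mat, star_sub, star_star]
    module
  · show ((1 / 2 : ℝ) • (X - star X) - rem X) 2 2 = 0
    rw [Matrix.sub_apply, rem, Matrix.diagonal_apply_eq, Matrix.smul_apply, Matrix.sub_apply,
      Matrix.star_apply]
    exact sub_self _
  · show (((1 / 2 : ℝ) • (X - star X) - rem X) 0 0).imI +
      (((1 / 2 : ℝ) • (X - star X) - rem X) 1 1).imI = 0
    rw [Matrix.sub_apply, Matrix.sub_apply, rem, Matrix.diagonal_apply_eq,
      Matrix.diagonal_apply_eq, Matrix.smul_apply, Matrix.sub_apply, Matrix.smul_apply,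
      Matrix.sub_apply, Matrix.star_apply, Matrix.star_apply]
    simp
    ring

theorem half_sub_star {X : Mat} (h1 : star X = -X) : (1 / 2 : ℝ) • (X - star X) = X := by
  rw [h1, sub_neg_eq_add, ← two_smul ℝ X, smul_smul]; norm_num

theorem projL_of_m {X : Mat} (hX : X ∈ m) : projL X = X := by
  obtain ⟨h1, h2, h3⟩ := hX
  show (1 / 2 : ℝ) • (X - star X) - rem X = X
  rw [half_sub_star h1]
  have h5 : rem X = 0 := by
    rw [rem, h2, h3]
    have : (![iq (0 / 2), iq (0 / 2), (1 / 2 : ℝ) • ((0 : ℍ[ℝ]) - star 0)]) = 0 := by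
      funext i
      fin_cases i <;> simp
    rw [this]
    exact Matrix.diagonal_zero
  rw [h5, sub_zero]

theorem star_hh {X : Mat} (hX : X ∈ hh) : star X = -X := by
  obtain ⟨θ, q, hq, rfl⟩ := hX
  rw [Matrix.star_eq_conjTranspose, Matrix.diagonal_conjTranspose, Matrix.diagonal_neg]
  congr 1
  funext i
  fin_cases i
  · ext <;> simp
  · ext <;> simp
  · ext <;> simp [hq]

theorem exists_P : ∃ P : Mat →L[ℝ] m, RedData gg hh m P := by
  let P0 : Mat →ₗ[ℝ] m := projL.codRestrict m projL_mem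
  refine ⟨LinearMap.toContinuousLinearMap P0, ?_, ?_, ?_, ?_, ?_, ?_, ?_, ?_⟩
  · intro X hX Y hY
    have h1 : star X = -X := hX
    have h2 : star Y = -Y := hY
    show star ⁅X, Y⁆ = -⁅X, Y⁆
    rw [Ring.lie_def, star_sub, star_mul, star_mul, h1, h2]
    noncomm_ring
  · intro X hX
    exact hX.1
  · intro X hX
    exact star_hh hX
  · rintro X ⟨θ, q, hq, rfl⟩ Y ⟨θ', q', hq', rfl⟩
    refine ⟨0, q * q' - q' * q, by simp; ring, ?_⟩
    rw [Ring.lie_def, Matrix.diagonal_mul_diagonal, Matrix.diagonal_mul_diagonal,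
      Matrix.diagonal_sub]
    congr 1
    funext i
    fin_cases i
    · ext <;> simp; ring
    · ext <;> simp; ring
    · rfl
  · intro z
    apply Subtype.ext
    exact projL_of_m z.2
  · intro X hX
    apply Subtype.ext
    show (1 / 2 : ℝ) • (X - star X) - rem X = 0
    rw [half_sub_star (star_hh hX)]
    obtain ⟨θ, q, hq, rfl⟩ := hX
    rw [rem, sub_eq_zero]
    congr 1
    funext i
    fin_cases i
    · ext <;> simp
    · ext <;> simp
    · ext <;> simp [hq]
      all_goals ring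
  · intro X hX
    have h1 : star X = -X := hX
    show X - ((1 / 2 : ℝ) • (X - star X) - rem X) ∈ hh
    rw [half_sub_star h1, sub_sub_cancel]
    exact ⟨((X 0 0).imI + (X 1 1).imI) / 2, (1 / 2 : ℝ) • (X 2 2 - star (X 2 2)), by simp, rfl⟩
  · rintro X hX z ⟨h1, h2, h3⟩
    have h5 := star_hh hX
    obtain ⟨θ, q, hq, rfl⟩ := hX
    have e : ∀ i j : Fin 3, ⁅(Matrix.diagonal ![iq θ, iq θ, q] : Mat), z⁆ i j =
        ![iq θ, iq θ, q] i * z i j - z i j * ![iq θ, iq θ, q] j := by
      intro i j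
      rw [Ring.lie_def, Matrix.sub_apply, Matrix.diagonal_mul, Matrix.mul_diagonal]
    refine ⟨?_, ?_, ?_⟩
    · rw [Ring.lie_def, star_sub, star_mul, star_mul, h1, h5]
      noncomm_ring
    · rw [e, h2]; simp
    · rw [e, e]
      show (iq θ * z 0 0 - z 0 0 * iq θ).imI + (iq θ * z 1 1 - z 1 1 * iq θ).imI = 0
      simp
      ring

theorem Ad_m : ∀ k ∈ H, ∀ Z ∈ m, Adj k Z ∈ m := by
  rintro k hk Z ⟨h1, h2, h3⟩
  have hinv := inv_of_mem_H hk
  obtain ⟨z, q, hz, hq, hkd⟩ := hk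
  have hs : star (dg z q) = Matrix.diagonal ![star (z : ℍ[ℝ]), star (z : ℍ[ℝ]), star q] := by
    rw [dg, Matrix.star_eq_conjTranspose, Matrix.diagonal_conjTranspose]
    congr 1
    funext i
    fin_cases i <;> rfl
  have e : ∀ i j : Fin 3, Adj k Z i j =
      ![(z : ℍ[ℝ]), (z : ℍ[ℝ]), q] i * Z i j * ![star (z : ℍ[ℝ]), star (z : ℍ[ℝ]), star q] j := by
    intro i j
    show ((k : Mat) * Z * ((k⁻¹ : Matˣ) : Mat)) i j = _
    rw [hinv, hkd, hs, Matrix.mul_diagonal, dg, Matrix.diagonal_mul]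
  have hn : z.re ^ 2 + z.im ^ 2 = 1 := by
    have : Complex.normSq z = 1 := by rw [Complex.normSq_eq_norm_sq, hz]; norm_num
    rw [Complex.normSq_apply] at this
    nlinarith
  refine ⟨?_, ?_, ?_⟩
  · show star ((k : Mat) * Z * ((k⁻¹ : Matˣ) : Mat)) = -((k : Mat) * Z * ((k⁻¹ : Matˣ) : Mat))
    rw [hinv, star_mul, star_mul, star_star, h1]
    noncomm_ring
  · rw [e, h2]; simp
  · rw [e, e]
    have key : ∀ x : ℍ[ℝ], ((z : ℍ[ℝ]) * x * star (z : ℍ[ℝ])).imI = x.imI := by
      intro x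
      have : ((z : ℍ[ℝ]) * x * star (z : ℍ[ℝ])).imI = (z.re ^ 2 + z.im ^ 2) * x.imI := by
        simp
        ring
      rw [this, hn, one_mul]
    show ((z : ℍ[ℝ]) * Z 0 0 * star (z : ℍ[ℝ])).imI + ((z : ℍ[ℝ]) * Z 1 1 * star (z : ℍ[ℝ])).imI = 0
    rw [key, key, h3]

end Sp3

end Pool.Agent.Helper93.Fin
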