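import Pool.Agent.helper8.Fin.Neg
import Pool.Agent.helper8.Fin.Sp3a
import Pool.Agent.helper18.FinB

/-!
# Module Sp3b: `Sp(3)/diag(z,z,q)` admits no invariant metric of positive flag curvature
-/

noncomputable section

namespace Pool.Agent.Helper93.Fin

open scoped ContDiff Quaternion Matrix

attribute [local instance] Matrix.linftyOpNormedRing Matrix.linftyOpNormedAlgebra

namespace Sp3

theorem isReductive : IsReductive G H m := by
  obtain ⟨P, hP⟩ := exists_P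
  exact isReductive_of H_le mem_gg mem_hh hP Ad_m

/-! ### the invariant form -/

theorem re_mul_comm (a b : ℍ[ℝ]) : (a * b).re = (b * a).re := by
  simp; ring

theorem re_trace_mul_comm (A B : Mat) : (A * B).trace.re = (B * A).trace.re := by
  have h : ∀ (A B : Mat), (A * B).trace.re = ∑ i, ∑ j, (A i j * B j i).re := by
    intro A B
    rw [Matrix.trace]
    simp only [Matrix.diag_apply, Matrix.mul_apply, Fin.sum_univ_three, Quaternion.re_add]
  rw [h, h, Finset.sum_comm]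
  refine Finset.sum_congr rfl fun i _ => Finset.sum_congr rfl fun j _ => re_mul_comm _ _

/-- `Re tr (X Y*)` -/
def QL : Mat →ₗ[ℝ] Mat →ₗ[ℝ] ℝ := LinearMap.mk₂ ℝ (fun X Y => (X * star Y).trace.re)
  (by
    intro X X' Y
    rw [add_mul, Matrix.trace_add, Quaternion.re_add])
  (by
    intro c X Y
    rw [Matrix.smul_mul, Matrix.trace_smul, Quaternion.re_smul])
  (by
    intro X Y Y'
    rw [star_add, mul_add, Matrix.trace_add, Quaternion.re_add])
  (by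
    intro c X Y
    rw [star_smul_mat, Matrix.mul_smul, Matrix.trace_smul, Quaternion.re_smul])

/-- the invariant form as a continuous bilinear map -/
def Q : Mat →L[ℝ] Mat →L[ℝ] ℝ :=
  LinearMap.toContinuousLinearMap
    ((LinearMap.toContinuousLinearMap : (Mat →ₗ[ℝ] ℝ) ≃ₗ[ℝ] (Mat →L[ℝ] ℝ)).toLinearMap ∘ₗ QL)

theorem Q_apply (X Y : Mat) : Q X Y = (X * star Y).trace.re := rfl

theorem Q_eq_sum (X Y : Mat) : Q X Y = ∑ i, ∑ j, (X i j * star (Y i j)).re := by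
  rw [Q_apply, Matrix.trace]
  simp only [Matrix.diag_apply, Matrix.mul_apply, Fin.sum_univ_three, Quaternion.re_add,
    Matrix.star_apply]

theorem Q_symm (X Y : Mat) : Q X Y = Q Y X := by
  rw [Q_eq_sum, Q_eq_sum]
  refine Finset.sum_congr rfl fun i _ => Finset.sum_congr rfl fun j _ => ?_
  simp
  ring

theorem Q_pos (z : m) (hz : z ≠ 0) : 0 < Q (z : Mat) z := by
  rw [Q_eq_sum]
  have hsq : ∀ q : ℍ[ℝ], (q * star q).re = Quaternion.normSq q := fun q => rfl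
  have hnn : ∀ i j, 0 ≤ ((z : Mat) i j * star ((z : Mat) i j)).re := by
    intro i j
    rw [hsq]
    exact Quaternion.normSq_nonneg
  have hex : ∃ i j, (z : Mat) i j ≠ 0 := by
    by_contra hcon
    push Not at hcon
    apply hz
    apply Subtype.ext
    ext i j : 1
    exact hcon i j
  obtain ⟨i, j, hij⟩ := hex
  refine Finset.sum_pos' (fun i _ => Finset.sum_nonneg fun j _ => hnn i j) ⟨i, Finset.mem_univ _, ?_⟩
  refine Finset.sum_pos' (fun j _ => hnn i j) ⟨j, Finset.mem_univ _, ?_⟩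
  rw [hsq]
  exact lt_of_le_of_ne Quaternion.normSq_nonneg
    (fun h => hij (Quaternion.normSq_eq_zero.mp h.symm))

theorem Q_inv : ∀ X ∈ gg, ∀ Y ∈ gg, ∀ Z ∈ gg, Q ⁅X, Y⁆ Z = Q X ⁅Y, Z⁆ := by
  intro X hX Y hY Z hZ
  have h1 : star X = -X := hX
  have h2 : star Y = -Y := hY
  have h3 : star Z = -Z := hZ
  have h4 : star ⁅Y, Z⁆ = -⁅Y, Z⁆ := by
    rw [Ring.lie_def, star_sub, star_mul, star_mul, h2, h3]
    noncomm_ring
  rw [Q_apply, Q_apply, h4, h3, Ring.lie_def, Ring.lie_def]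
  have e1 : (X * Y - Y * X) * -Z = Y * (X * Z) - X * (Y * Z) := by noncomm_ring
  have e2 : X * -(Y * Z - Z * Y) = X * (Z * Y) - X * (Y * Z) := by noncomm_ring
  rw [e1, e2, Matrix.trace_sub, Matrix.trace_sub, Quaternion.re_sub, Quaternion.re_sub,
    re_trace_mul_comm Y (X * Z), mul_assoc]

/-! ### the grading -/

/-- odd part -/
def pp : Submodule ℝ m where
  carrier := {z | (z : Mat) 0 0 = 0 ∧ (z : Mat) 0 1 = 0 ∧ (z : Mat) 1 0 = 0 ∧ (z : Mat) 1 1 = 0}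
  zero_mem' := by simp
  add_mem' := by
    rintro x y ⟨h1, h2, h3, h4⟩ ⟨k1, k2, k3, k4⟩
    refine ⟨?_, ?_, ?_, ?_⟩ <;> simp [*]
  smul_mem' := by
    rintro c x ⟨h1, h2, h3, h4⟩
    refine ⟨?_, ?_, ?_, ?_⟩ <;> simp [*]

/-- even part -/
def qq : Submodule ℝ m where
  carrier := {z | (z : Mat) 0 2 = 0 ∧ (z : Mat) 1 2 = 0 ∧ (z : Mat) 2 0 = 0 ∧ (z : Mat) 2 1 = 0}
  zero_mem' := by simp
  add_mem' := by
    rintro x y ⟨h1, h2, h3, h4⟩ ⟨k1, k2, k3, k4⟩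
    refine ⟨?_, ?_, ?_, ?_⟩ <;> simp [*]
  smul_mem' := by
    rintro c x ⟨h1, h2, h3, h4⟩
    refine ⟨?_, ?_, ?_, ?_⟩ <;> simp [*]

/-- the conjugating element -/
def kk : Matˣ := ⟨dg 1 (-1), dg 1 (-1), by
    rw [dg, Matrix.diagonal_mul_diagonal, ← Matrix.diagonal_one]
    congr 1; funext i; fin_cases i <;> simp, by
    rw [dg, Matrix.diagonal_mul_diagonal, ← Matrix.diagonal_one]
    congr 1; funext i; fin_cases i <;> simp⟩

theorem kk_mem : kk ∈ H := ⟨1, -1, by simp, by simp, rfl⟩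

theorem Adj_kk (Z : Mat) (i j : Fin 3) : Adj kk Z i j =
    ![(1 : ℍ[ℝ]), 1, -1] i * Z i j * ![(1 : ℍ[ℝ]), 1, -1] j := by
  have h : dg 1 (-1) = Matrix.diagonal ![(1 : ℍ[ℝ]), 1, -1] := by
    rw [dg]; simp
  show (dg 1 (-1) * Z * dg 1 (-1)) i j = _
  rw [h, Matrix.mul_diagonal, Matrix.diagonal_mul]

theorem Adj_kk_eq (x y : m) (hx : x ∈ pp) (hy : y ∈ qq) :
    ((-x + y : m) : Mat) = Adj kk ((x + y : m) : Mat) := by
  obtain ⟨h1, h2, h3, h4⟩ := hx
  obtain ⟨k1, k2, k3, k4⟩ := hy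
  have hx2 := x.2.2.1
  have hy2 := y.2.2.1
  ext i j : 1
  rw [Adj_kk]
  fin_cases i <;> fin_cases j <;> simp [*]

/-- decomposition -/
theorem exists_sum (z : m) : ∃ x ∈ pp, ∃ y ∈ qq, z = x + y := by
  have hz := z.2
  have hA : Adj kk (z : Mat) ∈ m := Ad_m kk kk_mem z hz
  let w : m := ⟨Adj kk (z : Mat), hA⟩
  refine ⟨(1 / 2 : ℝ) • (z - w), ?_, (1 / 2 : ℝ) • (z + w), ?_, ?_⟩
  · refine ⟨?_, ?_, ?_, ?_⟩ <;>
      (simp only [Submodule.coe_smul, Submodule.coe_sub, Matrix.smul_apply, Matrix.sub_apply, w,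
        Adj_kk]
       simp)
  · refine ⟨?_, ?_, ?_, ?_⟩ <;>
      (simp only [Submodule.coe_smul, Submodule.coe_add, Matrix.smul_apply, Matrix.add_apply, w,
        Adj_kk]
       simp)
  · module

theorem pp_inf_qq (z : m) (hp : z ∈ pp) (hq : z ∈ qq) : z = 0 := by
  obtain ⟨h1, h2, h3, h4⟩ := hp
  obtain ⟨k1, k2, k3, k4⟩ := hq
  have h5 := z.2.2.1
  apply Subtype.ext
  ext i j : 1
  fin_cases i <;> fin_cases j <;> simp [*]

theorem mem_qq_of (P : Mat →L[ℝ] m) (hR : RedData gg hh m P) {X : Mat} (hX : X ∈ gg)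
    (h1 : X 0 2 = 0) (h2 : X 1 2 = 0) (h3 : X 2 0 = 0) (h4 : X 2 1 = 0) : P X ∈ qq := by
  obtain ⟨θ, q, hq, h⟩ := hR.res X hX
  have he : ((P X : m) : Mat) = X - Matrix.diagonal ![iq θ, iq θ, q] := by
    rw [← h]; abel
  refine ⟨?_, ?_, ?_, ?_⟩
  · rw [he, Matrix.sub_apply, h1, Matrix.diagonal_apply_ne _ (by decide), sub_zero]
  · rw [he, Matrix.sub_apply, h2, Matrix.diagonal_apply_ne _ (by decide), sub_zero]
  · rw [he, Matrix.sub_apply, h3, Matrix.diagonal_apply_ne _ (by decide), sub_zero]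
  · rw [he, Matrix.sub_apply, h4, Matrix.diagonal_apply_ne _ (by decide), sub_zero]

theorem br_apply (X Y : Mat) (i j : Fin 3) : ⁅X, Y⁆ i j =
    (X i 0 * Y 0 j + X i 1 * Y 1 j + X i 2 * Y 2 j) -
      (Y i 0 * X 0 j + Y i 1 * X 1 j + Y i 2 * X 2 j) := by
  rw [Ring.lie_def, Matrix.sub_apply, Matrix.mul_apply, Matrix.mul_apply, Fin.sum_univ_three,
    Fin.sum_univ_three]

theorem hpp (P : Mat →L[ℝ] m) (hR : RedData gg hh m P) : ∀ x ∈ pp, ∀ y ∈ pp,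
    P ⁅(x : Mat), (y : Mat)⁆ ∈ qq := by
  intro x hx y hy
  have hxm := x.2.2.1
  have hym := y.2.2.1
  apply mem_qq_of P hR (hR.lie _ (hR.m_le x.2) _ (hR.m_le y.2))
  all_goals
    obtain ⟨h1, h2, h3, h4⟩ := hx
    obtain ⟨k1, k2, k3, k4⟩ := hy
    rw [br_apply]
    simp [*]

theorem hqq (P : Mat →L[ℝ] m) (hR : RedData gg hh m P) : ∀ x ∈ qq, ∀ y ∈ qq,
    P ⁅(x : Mat), (y : Mat)⁆ ∈ qq := by
  intro x hx y hy
  have hxm := x.2.2.1
  have hym := y.2.2.1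
  apply mem_qq_of P hR (hR.lie _ (hR.m_le x.2) _ (hR.m_le y.2))
  all_goals
    obtain ⟨h1, h2, h3, h4⟩ := hx
    obtain ⟨k1, k2, k3, k4⟩ := hy
    rw [br_apply]
    simp [*]

theorem hpq (P : Mat →L[ℝ] m) (hR : RedData gg hh m P) : ∀ x ∈ pp, ∀ y ∈ qq,
    P ⁅(x : Mat), (y : Mat)⁆ ∈ pp ∧ (P ⁅(x : Mat), (y : Mat)⁆ : Mat) = ⁅(x : Mat), (y : Mat)⁆ := by
  intro x hx y hy
  have hg : ⁅(x : Mat), (y : Mat)⁆ ∈ gg := hR.lie _ (hR.m_le x.2) _ (hR.m_le y.2)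
  have hxm := x.2.2.1
  have hym := y.2.2.1
  obtain ⟨h1, h2, h3, h4⟩ := hx
  obtain ⟨k1, k2, k3, k4⟩ := hy
  have e00 : ⁅(x : Mat), (y : Mat)⁆ 0 0 = 0 := by rw [br_apply]; simp [*]
  have e01 : ⁅(x : Mat), (y : Mat)⁆ 0 1 = 0 := by rw [br_apply]; simp [*]
  have e10 : ⁅(x : Mat), (y : Mat)⁆ 1 0 = 0 := by rw [br_apply]; simp [*]
  have e11 : ⁅(x : Mat), (y : Mat)⁆ 1 1 = 0 := by rw [br_apply]; simp [*]
  have e22 : ⁅(x : Mat), (y : Mat)⁆ 2 2 = 0 := by rw [br_apply]; simp [*]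
  have hm : ⁅(x : Mat), (y : Mat)⁆ ∈ m := ⟨hg, e22, by rw [e00, e11]; simp⟩
  have hP : P ⁅(x : Mat), (y : Mat)⁆ = ⟨⁅(x : Mat), (y : Mat)⁆, hm⟩ :=
    hR.P_m ⟨⁅(x : Mat), (y : Mat)⁆, hm⟩
  rw [hP]
  exact ⟨⟨e00, e01, e10, e11⟩, rfl⟩

/-! ### dimensions -/

/-- coordinates of the odd part -/
def pcoord : pp →ₗ[ℝ] ℍ[ℝ] × ℍ[ℝ] where
  toFun z := (((z : m) : Mat) 0 2, ((z : m) : Mat) 1 2)
  map_add' _ _ := rfl
  map_smul' _ _ := rfl

theorem pcoord_inj : Function.Injective pcoord := by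
  rw [injective_iff_map_eq_zero]
  intro z hz
  have h1 : ((z : m) : Mat) 0 2 = 0 := congrArg Prod.fst hz
  have h2 : ((z : m) : Mat) 1 2 = 0 := congrArg Prod.snd hz
  have hs := (z : m).2.1
  apply Subtype.ext
  apply pp_inf_qq _ z.2
  refine ⟨h1, h2, ?_, ?_⟩
  · have := congrFun (congrFun hs 2) 0
    rw [Matrix.star_apply, Matrix.neg_apply, h1, star_zero] at this
    exact neg_eq_zero.mp this.symm
  · have := congrFun (congrFun hs 2) 1
    rw [Matrix.star_apply, Matrix.neg_apply, h2, star_zero] at this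
    exact neg_eq_zero.mp this.symm

/-- a parametrisation of the even part -/
def qmat (v : ℍ[ℝ] × ℍ[ℝ] × ℝ) : Mat :=
  !![⟨0, v.2.1.re, v.2.1.imJ, v.2.1.imK⟩, v.1, 0;
     -star v.1, ⟨0, -v.2.1.re, v.2.1.imI, v.2.2⟩, 0;
     0, 0, 0]

theorem qmat_mem (v : ℍ[ℝ] × ℍ[ℝ] × ℝ) : qmat v ∈ m := by
  refine ⟨?_, rfl, ?_⟩
  · ext i j : 1
    rw [Matrix.star_apply, Matrix.neg_apply]
    fin_cases i <;> fin_cases j <;> (ext <;> simp [qmat])
  · simp [qmat]

/-- a parametrisation of the even part -/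
def qpar : ℍ[ℝ] × ℍ[ℝ] × ℝ →ₗ[ℝ] qq where
  toFun v := ⟨⟨qmat v, qmat_mem v⟩, ⟨rfl, rfl, rfl, rfl⟩⟩
  map_add' v w := by
    apply Subtype.ext
    apply Subtype.ext
    show qmat (v + w) = qmat v + qmat w
    ext i j : 1
    rw [Matrix.add_apply]
    fin_cases i <;> fin_cases j <;> (ext <;> simp [qmat] <;> ring)
  map_smul' c v := by
    apply Subtype.ext
    apply Subtype.ext
    show qmat (c • v) = c • qmat v
    ext i j : 1
    rw [Matrix.smul_apply]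
    fin_cases i <;> fin_cases j <;> (ext <;> simp [qmat])

theorem qpar_inj : Function.Injective qpar := by
  rw [injective_iff_map_eq_zero]
  intro v hv
  have h : qmat v = 0 := congrArg (fun x : qq => ((x : m) : Mat)) hv
  have h00 : (⟨0, v.2.1.re, v.2.1.imJ, v.2.1.imK⟩ : ℍ[ℝ]) = 0 := congrFun (congrFun h 0) 0
  have h01 : v.1 = 0 := congrFun (congrFun h 0) 1
  have h11 : (⟨0, -v.2.1.re, v.2.1.imI, v.2.2⟩ : ℍ[ℝ]) = 0 := congrFun (congrFun h 1) 1
  have a1 : v.2.1.re = 0 := congrArg QuaternionAlgebra.imI h00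
  have a2 : v.2.1.imJ = 0 := congrArg QuaternionAlgebra.imJ h00
  have a3 : v.2.1.imK = 0 := congrArg QuaternionAlgebra.imK h00
  have a4 : v.2.1.imI = 0 := congrArg QuaternionAlgebra.imJ h11
  have a5 : v.2.2 = 0 := congrArg QuaternionAlgebra.imK h11
  refine Prod.ext h01 (Prod.ext ?_ a5)
  ext
  · exact a1
  · exact a4
  · exact a2
  · exact a3

theorem finrank_lt : Module.finrank ℝ pp < Module.finrank ℝ qq := by
  have h1 : Module.finrank ℝ pp ≤ 8 := by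
    have := LinearMap.finrank_le_finrank_of_injective pcoord_inj
    rw [Module.finrank_prod, Quaternion.finrank_eq_four] at this
    exact this
  have h2 : 9 ≤ Module.finrank ℝ qq := by
    have := LinearMap.finrank_le_finrank_of_injective qpar_inj
    rw [Module.finrank_prod, Module.finrank_prod, Quaternion.finrank_eq_four,
      Module.finrank_self] at this
    exact this
  omega

theorem pp_ne_bot : pp ≠ ⊥ := by
  intro h
  have hm : (!![0, 0, 1; 0, 0, 0; -1, 0, 0] : Mat) ∈ m := by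
    refine ⟨?_, rfl, by simp⟩
    ext i j : 1
    rw [Matrix.star_apply, Matrix.neg_apply]
    fin_cases i <;> fin_cases j <;> simp
  have h1 : (⟨!![0, 0, 1; 0, 0, 0; -1, 0, 0], hm⟩ : m) ∈ pp := ⟨rfl, rfl, rfl, rfl⟩
  rw [h, Submodule.mem_bot] at h1
  have h2 : (!![0, 0, 1; 0, 0, 0; -1, 0, 0] : Mat) = 0 := congrArg Subtype.val h1
  have h3 : (1 : ℍ[ℝ]) = 0 := congrFun (congrFun h2 0) 2
  exact one_ne_zero h3

theorem not_admitsPositive : ¬ AdmitsPositive G H m := by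
  rintro ⟨F, hF, hpos⟩
  obtain ⟨P, hR⟩ := exists_P
  have hL := minkData_of mem_gg mem_hh hR hF
  have hhom := Lag_smul mem_gg hR hF
  obtain ⟨u, b, hub, hle⟩ := Pool.Agent.helper8.Fin.exists_nonpos_Rform hR hL hhom Q exists_sum
    pp_inf_qq
    (fun x hx y hy => (Lag_Ad mem_gg hR hF kk_mem (x + y) (-x + y) (Adj_kk_eq x y hx hy)).symm)
    (hpp P hR) (hqq P hR) (hpq P hR) Q_symm Q_inv Q_pos finrank_lt pp_ne_bot
  have h := (flag_pos_iff mem_gg mem_hh hR hF hub).mp (hpos u b hub)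
  linarith

end Sp3

end Pool.Agent.Helper93.Fin
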