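import Pool.Agent.Helper93.Fin.Q

/-!
# Homogeneous spaces with an involution: no positive flag curvature

Abstract variational argument.
-/

noncomputable section

namespace Pool.Agent.helper8.Fin

open Pool.Agent.Helper93.Fin
open scoped ContDiff Topology

section lines

variable {E : Type*} [NormedAddCommGroup E] [NormedSpace ℝ E] {f : E → ℝ}

theorem cd_at (hf : ContDiffOn ℝ ∞ f {0}ᶜ) {u : E} (hu : u ≠ 0) : ContDiffAt ℝ ∞ f u :=
  hf.contDiffAt (isOpen_compl_singleton.mem_nhds hu)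

theorem cd_D1 (hf : ContDiffOn ℝ ∞ f {0}ᶜ) {u : E} (hu : u ≠ 0) (a : E) :
    ContDiffAt ℝ ∞ (fun x => D1 f x a) u := by
  have h := (cd_at hf hu).fderiv_right (m := ∞) (by simp)
  exact h.clm_apply contDiffAt_const

/-- derivative along a line -/
theorem hasDerivAt_line (hf : ContDiffOn ℝ ∞ f {0}ᶜ) {u z : E} {t : ℝ} (hu : u + t • z ≠ 0) :
    HasDerivAt (fun s : ℝ => f (u + s • z)) (D1 f (u + t • z) z) t := by
  have h1 : HasFDerivAt f (fderiv ℝ f (u + t • z)) (u + t • z) :=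
    ((cd_at hf hu).differentiableAt (by simp)).hasFDerivAt
  have h2 : HasDerivAt (fun s : ℝ => u + s • z) z t := by
    simpa using ((hasDerivAt_id t).smul_const z).const_add u
  exact h1.comp_hasDerivAt t h2

theorem hasDerivAt_line_D1 (hf : ContDiffOn ℝ ∞ f {0}ᶜ) {u z : E} (a : E) {t : ℝ}
    (hu : u + t • z ≠ 0) :
    HasDerivAt (fun s : ℝ => D1 f (u + s • z) a) (D2 f (u + t • z) a z) t := by
  have h1 : HasFDerivAt (fun x => D1 f x a) (fderiv ℝ (fun x => D1 f x a) (u + t • z))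
      (u + t • z) := ((cd_D1 hf hu a).differentiableAt (by simp)).hasFDerivAt
  have h2 : HasDerivAt (fun s : ℝ => u + s • z) z t := by
    simpa using ((hasDerivAt_id t).smul_const z).const_add u
  exact h1.comp_hasDerivAt t h2

/-- points near `u` on a line are nonzero -/
theorem line_ne_zero {u z : E} (hu : u ≠ 0) : ∀ᶠ t in 𝓝 (0 : ℝ), u + t • z ≠ 0 := by
  have hc : Continuous (fun s : ℝ => u + s • z) := by fun_prop
  have h0 : (fun s : ℝ => u + s • z) 0 ≠ 0 := by simpa using hu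
  exact hc.continuousAt.eventually_ne h0

/-- if a nonneg function vanishes at `0` then the second derivative is nonnegative -/
theorem second_nonneg {G G' : ℝ → ℝ} {c : ℝ} (h0 : G 0 = 0) (hG : ∀ t, 0 ≤ G t)
    (h1 : ∀ᶠ t in 𝓝 (0 : ℝ), HasDerivAt G (G' t) t) (h2 : HasDerivAt G' c 0) :
    G' 0 = 0 ∧ 0 ≤ c := by
  have hmin : IsLocalMin G 0 := Filter.Eventually.of_forall fun t => by rw [h0]; exact hG t
  have hd : HasDerivAt G (G' 0) 0 := h1.self_of_nhds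
  have e0 : G' 0 = 0 := hmin.hasDerivAt_eq_zero hd
  refine ⟨e0, ?_⟩
  by_contra hc
  push Not at hc
  have hev : deriv G =ᶠ[𝓝 0] G' := h1.mono fun t ht => ht.deriv
  have hdd : deriv (deriv G) 0 = c := by
    rw [hev.deriv_eq]; exact h2.deriv
  have hmax : IsLocalMax G 0 :=
    isLocalMax_of_deriv_deriv_neg (by rw [hdd]; exact hc) (by rw [hd.deriv, e0])
      hd.continuousAt
  have hz : ∀ᶠ t in 𝓝 (0 : ℝ), G t = 0 := by
    filter_upwards [hmax] with t ht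
    exact le_antisymm (by rw [h0] at ht; exact ht) (hG t)
  have hz' : deriv G =ᶠ[𝓝 0] fun _ => 0 := by
    have h3 : G =ᶠ[𝓝 0] fun _ => (0 : ℝ) := hz
    have := h3.deriv
    refine this.trans ?_
    filter_upwards with t
    simp
  have : deriv (deriv G) 0 = 0 := by rw [hz'.deriv_eq]; simp
  rw [hdd] at this
  linarith

end lines

section general

variable {𝔸 : Type*} [NormedRing 𝔸] [NormedAlgebra ℝ 𝔸] [FiniteDimensional ℝ 𝔸]
variable {g h m : Submodule ℝ 𝔸} {P : 𝔸 →L[ℝ] m} {L : m → ℝ}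

theorem br_add (x y z : 𝔸) : ⁅x, y + z⁆ = ⁅x, y⁆ + ⁅x, z⁆ := by
  simp only [Ring.lie_def]; noncomm_ring

theorem add_br (x y z : 𝔸) : ⁅x + y, z⁆ = ⁅x, z⁆ + ⁅y, z⁆ := by
  simp only [Ring.lie_def]; noncomm_ring

theorem br_smul (c : ℝ) (x y : 𝔸) : ⁅x, c • y⁆ = c • ⁅x, y⁆ := by
  simp only [Ring.lie_def, mul_smul_comm, smul_mul_assoc, smul_sub]

theorem smul_br (c : ℝ) (x y : 𝔸) : ⁅c • x, y⁆ = c • ⁅x, y⁆ := by
  simp only [Ring.lie_def, mul_smul_comm, smul_mul_assoc, smul_sub]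

theorem br_self (x : 𝔸) : ⁅x, x⁆ = 0 := by
  simp only [Ring.lie_def]; noncomm_ring

theorem br_skew (x y : 𝔸) : ⁅x, y⁆ = -⁅y, x⁆ := by
  simp only [Ring.lie_def]; noncomm_ring

/-- the minimiser of `L / Q` on `p` -/
theorem exists_min (hs : ContDiffOn ℝ ∞ L {0}ᶜ)
    (hhom : ∀ (c : ℝ) (u : m), L (c • u) = c ^ 2 * L u) {p : Submodule ℝ m}
    (Q : 𝔸 →L[ℝ] 𝔸 →L[ℝ] ℝ) (Qpos : ∀ z : m, z ≠ 0 → 0 < Q z z) (hp : p ≠ ⊥) :
    ∃ u ∈ p, u ≠ 0 ∧ ∃ lam : ℝ, (∀ x ∈ p, lam / 2 * Q x x ≤ L x) ∧ lam / 2 * Q u u = L u := by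
  have : ProperSpace p := FiniteDimensional.proper ℝ p
  have hne : (Metric.sphere (0 : p) 1).Nonempty := by
    obtain ⟨x, hx, hx0⟩ := Submodule.exists_mem_ne_zero_of_ne_bot hp
    have hx0' : (⟨x, hx⟩ : p) ≠ 0 := fun h => hx0 (congrArg Subtype.val h)
    refine ⟨(‖(⟨x, hx⟩ : p)‖⁻¹ : ℝ) • ⟨x, hx⟩, ?_⟩
    rw [mem_sphere_zero_iff_norm, norm_smul, norm_inv, norm_norm]
    exact inv_mul_cancel₀ (norm_ne_zero_iff.mpr hx0')
  have hsne : ∀ x ∈ Metric.sphere (0 : p) 1, (x : m) ≠ 0 := by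
    intro x hx h0
    rw [mem_sphere_zero_iff_norm] at hx
    have : x = 0 := Subtype.ext h0
    rw [this, norm_zero] at hx
    exact zero_ne_one hx
  have hcont : ContinuousOn (fun x : p => L x / Q (x : m) (x : m)) (Metric.sphere (0 : p) 1) := by
    apply ContinuousOn.div
    · exact hs.continuousOn.comp (continuous_subtype_val.continuousOn)
        (fun x hx => hsne x hx)
    · apply Continuous.continuousOn
      have h1 : Continuous (fun x : p => ((x : m) : 𝔸)) :=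
        continuous_subtype_val.comp continuous_subtype_val
      exact (Q.continuous.comp h1).clm_apply h1
    · intro x hx
      exact (Qpos x (hsne x hx)).ne'
  obtain ⟨u, hu, hmin⟩ := (isCompact_sphere (0 : p) 1).exists_isMinOn hne hcont
  have hu0 := hsne u hu
  have hL0 : L 0 = 0 := by simpa using hhom 0 0
  refine ⟨u, u.2, hu0, 2 * (L u / Q (u : m) (u : m)), ?_, ?_⟩
  · intro x hx
    by_cases hx0 : x = 0
    · subst hx0
      simp [hL0]
    · have hx0' : (⟨x, hx⟩ : p) ≠ 0 := fun h => hx0 (congrArg Subtype.val h)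
      set r : ℝ := ‖(⟨x, hx⟩ : p)‖ with hr
      have hrpos : 0 < r := norm_pos_iff.mpr hx0'
      have hy : r⁻¹ • (⟨x, hx⟩ : p) ∈ Metric.sphere (0 : p) 1 := by
        rw [mem_sphere_zero_iff_norm, norm_smul, norm_inv, Real.norm_of_nonneg hrpos.le, ← hr,
          inv_mul_cancel₀ hrpos.ne']
      have h1 := hmin hy
      have h1' : L u / Q (u : m) (u : m) ≤
          L (r⁻¹ • x) / Q ((r⁻¹ • x : m) : 𝔸) ((r⁻¹ • x : m) : 𝔸) := h1
      rw [hhom] at h1'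
      have h2 : Q ((r⁻¹ • x : m) : 𝔸) ((r⁻¹ • x : m) : 𝔸) = (r⁻¹) ^ 2 * Q x x := by
        rw [Submodule.coe_smul, map_smul, map_smul, smul_apply]
        simp only [smul_eq_mul]
        ring
      rw [h2, mul_div_mul_left _ _ (by positivity)] at h1'
      have hQx : 0 < Q (x : 𝔸) (x : 𝔸) := Qpos x hx0
      rw [le_div_iff₀ hQx] at h1'
      linarith
  · have hQu : 0 < Q ((u : m) : 𝔸) ((u : m) : 𝔸) := Qpos u hu0
    field_simp

theorem exists_nonpos_Rform (hR : RedData g h m P) (hL : MinkData h m P L)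
    (hhom : ∀ (c : ℝ) (u : m), L (c • u) = c ^ 2 * L u)
    {p q : Submodule ℝ m} (Q : 𝔸 →L[ℝ] 𝔸 →L[ℝ] ℝ)
    (hsum : ∀ z : m, ∃ x ∈ p, ∃ y ∈ q, z = x + y)
    (hdisj : ∀ z : m, z ∈ p → z ∈ q → z = 0)
    (heven : ∀ x ∈ p, ∀ y ∈ q, L (x + y) = L (-x + y))
    (hpp : ∀ x ∈ p, ∀ y ∈ p, P ⁅(x : 𝔸), (y : 𝔸)⁆ ∈ q)
    (hqq : ∀ x ∈ q, ∀ y ∈ q, P ⁅(x : 𝔸), (y : 𝔸)⁆ ∈ q)
    (hpq : ∀ x ∈ p, ∀ y ∈ q, P ⁅(x : 𝔸), (y : 𝔸)⁆ ∈ p ∧
      (P ⁅(x : 𝔸), (y : 𝔸)⁆ : 𝔸) = ⁅(x : 𝔸), (y : 𝔸)⁆)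
    (Qsymm : ∀ X Y, Q X Y = Q Y X)
    (Qinv : ∀ X ∈ g, ∀ Y ∈ g, ∀ Z ∈ g, Q ⁅X, Y⁆ Z = Q X ⁅Y, Z⁆)
    (Qpos : ∀ z : m, z ≠ 0 → 0 < Q z z)
    (hdim : Module.finrank ℝ p < Module.finrank ℝ q) (hp : p ≠ ⊥) :
    ∃ u b : m, LinearIndependent ℝ ![u, b] ∧ Rform P L u b ≤ 0 := by
  have hs := hL.smooth
  obtain ⟨u, hup, hu0, lam, hge, heq⟩ := exists_min hs hhom Q Qpos hp
  have hg : ∀ z : m, (z : 𝔸) ∈ g := fun z => hR.m_le z.2
  -- antisymmetry of the bracket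
  have hskew : ∀ x y : 𝔸, ⁅x, y⁆ = -⁅y, x⁆ := br_skew
  -- first and second order conditions
  have hmin : ∀ z ∈ p, D1 L u z = lam * Q u z ∧ lam * Q z z ≤ D2 L u z z := by
    intro z hz
    let G : ℝ → ℝ := fun t => L (u + t • z) - lam / 2 * Q ((u + t • z : m) : 𝔸) ((u + t • z : m) : 𝔸)
    let G' : ℝ → ℝ := fun t => D1 L (u + t • z) z - lam * Q ((u + t • z : m) : 𝔸) z
    have hline : ∀ t, HasDerivAt (fun s : ℝ => ((u + s • z : m) : 𝔸)) (z : 𝔸) t := by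
      intro t
      have : (fun s : ℝ => ((u + s • z : m) : 𝔸)) = fun s : ℝ => (u : 𝔸) + s • (z : 𝔸) := by
        funext s; simp
      rw [this]
      simpa using ((hasDerivAt_id t).smul_const (z : 𝔸)).const_add (u : 𝔸)
    have hQ1 : ∀ t, HasDerivAt (fun s : ℝ => Q ((u + s • z : m) : 𝔸) (z : 𝔸))
        (Q (z : 𝔸) (z : 𝔸)) t := by
      intro t
      have h1 := (Q.flip (z : 𝔸)).hasFDerivAt (x := ((u + t • z : m) : 𝔸))
      have h2 := h1.comp_hasDerivAt t (hline t)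
      exact h2
    have hQ2 : ∀ t, HasDerivAt (fun s : ℝ => Q ((u + s • z : m) : 𝔸) ((u + s • z : m) : 𝔸))
        (2 * Q ((u + t • z : m) : 𝔸) (z : 𝔸)) t := by
      intro t
      have h1 : HasDerivAt (fun s : ℝ => Q ((u + s • z : m) : 𝔸)) (Q (z : 𝔸)) t :=
        Q.hasFDerivAt.comp_hasDerivAt t (hline t)
      have h2 := h1.clm_apply (hline t)
      have e : Q (z : 𝔸) ((u + t • z : m) : 𝔸) + Q ((u + t • z : m) : 𝔸) (z : 𝔸) =
          2 * Q ((u + t • z : m) : 𝔸) (z : 𝔸) := by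
        rw [Qsymm (z : 𝔸) ((u + t • z : m) : 𝔸)]; ring
      rw [e] at h2
      exact h2
    have h1 : ∀ᶠ t in 𝓝 (0 : ℝ), HasDerivAt G (G' t) t := by
      filter_upwards [line_ne_zero (z := z) hu0] with t ht
      have h3 := (hasDerivAt_line hs (z := z) ht).sub ((hQ2 t).const_mul (lam / 2))
      have e : D1 L (u + t • z) z - lam / 2 * (2 * Q ((u + t • z : m) : 𝔸) (z : 𝔸)) = G' t := by
        simp only [G']; ring
      rw [e] at h3
      exact h3
    have h2 : HasDerivAt G' (D2 L u z z - lam * Q z z) 0 := by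
      have hu0' : u + (0 : ℝ) • z ≠ 0 := by simpa using hu0
      have h3 := (hasDerivAt_line_D1 hs z (z := z) hu0').sub ((hQ1 0).const_mul lam)
      have e : u + (0 : ℝ) • z = u := by simp
      rw [e] at h3
      exact h3
    have h0 : G 0 = 0 := by
      simp only [G, zero_smul, add_zero]
      linarith
    have hG : ∀ t, 0 ≤ G t := by
      intro t
      have := hge (u + t • z) (p.add_mem hup (p.smul_mem t hz))
      simp only [G]
      linarith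
    obtain ⟨h3, h4⟩ := second_nonneg h0 hG h1 h2
    simp only [G', zero_smul, add_zero] at h3
    exact ⟨by linarith, by linarith⟩
  -- parity
  have hneg : ∀ v : m, L (-v) = L v := by
    intro v
    have := hhom (-1) v
    simpa using this
  have hodd1 : ∀ x ∈ p, x ≠ 0 → ∀ z ∈ q, D1 L x z = 0 := by
    intro x hx hx0 z hz
    have h1 : HasDerivAt (fun s : ℝ => L (x + s • z)) (D1 L x z) 0 := by
      have hx0' : x + (0 : ℝ) • z ≠ 0 := by simpa using hx0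
      have := hasDerivAt_line hs (z := z) hx0'
      simpa using this
    have h2 : HasDerivAt (fun s : ℝ => L (x + (-s) • z)) (-(D1 L x z)) 0 := by
      have h3 : HasDerivAt (fun s : ℝ => -s) (-1) 0 := (hasDerivAt_id (0 : ℝ)).neg
      have h1' : HasDerivAt (fun s : ℝ => L (x + s • z)) (D1 L x z) (-(0 : ℝ)) := by simpa using h1
      have h4 := h1'.comp (0 : ℝ) h3
      rw [mul_neg_one] at h4
      exact h4
    have h5 : (fun s : ℝ => L (x + s • z)) = fun s : ℝ => L (x + (-s) • z) := by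
      funext s
      rw [heven x hx (s • z) (q.smul_mem s hz), ← hneg (-x + s • z)]
      congr 1
      rw [neg_add, neg_neg, neg_smul]
    rw [h5] at h1
    have := h1.unique h2
    linarith
  have hodd2 : ∀ x ∈ p, ∀ z ∈ q, D2 L u x z = 0 := by
    intro x hx z hz
    rw [D2_symm hs hu0]
    have hu0' : u + (0 : ℝ) • x ≠ 0 := by simpa using hu0
    have h1 := hasDerivAt_line_D1 hs z (z := x) hu0'
    have h2 : (fun s : ℝ => D1 L (u + s • x) z) =ᶠ[𝓝 0] fun _ => 0 := by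
      filter_upwards [line_ne_zero (z := x) hu0] with t ht
      exact hodd1 _ (p.add_mem hup (p.smul_mem t hx)) ht z hz
    have h3 := h1.congr_of_eventuallyEq h2.symm
    have h4 := h3.unique (hasDerivAt_const (0 : ℝ) (0 : ℝ))
    simpa using h4
  have D1add := fun a a' => D1_add hs hu0 a a'
  have D2sum : ∀ a b c : m, D2 L u a (b + c) = D2 L u a b + D2 L u a c := by
    intro a b c
    rw [D2_symm hs hu0 a (b + c), D2_add hs hu0, D2_symm hs hu0 b a, D2_symm hs hu0 c a]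
  have D2smul : ∀ (a b : m) (r : ℝ), D2 L u a (r • b) = r * D2 L u a b := by
    intro a b r
    rw [D2_symm hs hu0 a (r • b), D2_smul hs hu0, D2_symm hs hu0 b a]
  -- bracket of `q` and `p`
  have hqp : ∀ y ∈ q, ∀ x ∈ p, P ⁅(y : 𝔸), (x : 𝔸)⁆ ∈ p ∧
      (P ⁅(y : 𝔸), (x : 𝔸)⁆ : 𝔸) = ⁅(y : 𝔸), (x : 𝔸)⁆ := by
    intro y hy x hx
    obtain ⟨h1, h2⟩ := hpq x hx y hy
    rw [hskew (y : 𝔸) x, map_neg]
    refine ⟨p.neg_mem h1, ?_⟩
    rw [Submodule.coe_neg, h2]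
  have hQbr : ∀ z : m, Q (u : 𝔸) ⁅(u : 𝔸), (z : 𝔸)⁆ = 0 := by
    intro z
    rw [← Qinv u (hg u) u (hg u) z (hg z), br_self]
    simp
  have hη : ∀ z : m, D1 L u (P ⁅(u : 𝔸), (z : 𝔸)⁆) = 0 := by
    intro z
    obtain ⟨x, hx, y, hy, rfl⟩ := hsum z
    rw [Submodule.coe_add, br_add, map_add, D1add, hodd1 u hup hu0 _ (hpp u hup x hx), zero_add,
      (hmin _ (hpq u hup y hy).1).1, (hpq u hup y hy).2, hQbr, mul_zero]
  -- the linear system
  let Φ : q →ₗ[ℝ] p →ₗ[ℝ] ℝ := LinearMap.mk₂ ℝ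
    (fun (b : q) (z : p) => D2 L u (P ⁅(u : 𝔸), ((b : m) : 𝔸)⁆) z
      - D2 L u b (P ⁅(u : 𝔸), ((z : m) : 𝔸)⁆) - lam * Q (u : 𝔸) ⁅((b : m) : 𝔸), ((z : m) : 𝔸)⁆)
    (by
      intro b b' z
      simp only [Submodule.coe_add, br_add, add_br, map_add, D2_add hs hu0]
      ring)
    (by
      intro c b z
      simp only [Submodule.coe_smul, br_smul, smul_br, map_smul, D2_smul hs hu0, smul_eq_mul]
      ring)
    (by
      intro b z z'
      simp only [Submodule.coe_add, br_add, map_add, D2sum]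
      ring)
    (by
      intro c b z
      simp only [Submodule.coe_smul, br_smul, map_smul, D2smul, smul_eq_mul]
      ring)
  have hker : LinearMap.ker Φ ≠ ⊥ := by
    apply LinearMap.ker_ne_bot_of_finrank_lt
    have : Module.finrank ℝ (p →ₗ[ℝ] ℝ) = Module.finrank ℝ p := Subspace.dual_finrank_eq
    rw [this]
    exact hdim
  obtain ⟨b, hbker, hb0⟩ := Submodule.exists_mem_ne_zero_of_ne_bot hker
  have hΦ : ∀ z ∈ p, D2 L u (P ⁅(u : 𝔸), ((b : m) : 𝔸)⁆) z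
      - D2 L u b (P ⁅(u : 𝔸), (z : 𝔸)⁆) - lam * Q (u : 𝔸) ⁅((b : m) : 𝔸), (z : 𝔸)⁆ = 0 := by
    intro z hz
    have h1 : Φ b = 0 := LinearMap.mem_ker.mp hbker
    have h2 := LinearMap.congr_fun h1 ⟨z, hz⟩
    exact h2
  have hbq : (b : m) ∈ q := b.2
  have hb0' : (b : m) ≠ 0 := fun h => hb0 (Subtype.ext h)
  set w : m := P ⁅(u : 𝔸), ((b : m) : 𝔸)⁆ with hw
  have hwp : w ∈ p := (hpq u hup b hbq).1
  have hwe : (w : 𝔸) = ⁅(u : 𝔸), ((b : m) : 𝔸)⁆ := (hpq u hup b hbq).2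
  have hd : ∀ z : m, D2 L u (-w) z =
      - D2 L u b (P ⁅(u : 𝔸), (z : 𝔸)⁆) - D1 L u (P ⁅((b : m) : 𝔸), (z : 𝔸)⁆) := by
    intro z
    obtain ⟨x, hx, y, hy, rfl⟩ := hsum z
    have e1 : D2 L u (-w) (x + y) = - D2 L u w x := by
      have h1 : (-w : m) = (-1 : ℝ) • w := by simp
      rw [h1, D2_smul hs hu0, D2sum, hodd2 w hwp y hy]
      ring
    have e2 : D2 L u b (P ⁅(u : 𝔸), ((x + y : m) : 𝔸)⁆) = D2 L u b (P ⁅(u : 𝔸), (x : 𝔸)⁆) := by
      rw [Submodule.coe_add, br_add, map_add, D2sum, D2_symm hs hu0 b (P ⁅(u : 𝔸), (y : 𝔸)⁆),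
        hodd2 _ (hpq u hup y hy).1 b hbq, add_zero]
    have e3 : D1 L u (P ⁅((b : m) : 𝔸), ((x + y : m) : 𝔸)⁆) =
        lam * Q (u : 𝔸) ⁅((b : m) : 𝔸), (x : 𝔸)⁆ := by
      rw [Submodule.coe_add, br_add, map_add, D1add, hodd1 u hup hu0 _ (hqq b hbq y hy), add_zero,
        (hmin _ (hqp b hbq x hx).1).1, (hqp b hbq x hx).2]
    rw [e1, e2, e3]
    have := hΦ x hx
    linarith
  refine ⟨u, b, ?_, ?_⟩
  · rw [LinearIndependent.pair_iff]
    intro s t hst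
    have h1 : s • u = -(t • (b : m)) := eq_neg_of_add_eq_zero_left hst
    have h2 : s • u = 0 := hdisj _ (p.smul_mem s hup) (by rw [h1]; exact q.neg_mem (q.smul_mem t hbq))
    have h3 : t • (b : m) = 0 := by rw [h2, zero_add] at hst; exact hst
    exact ⟨(smul_eq_zero.mp h2).resolve_right hu0, (smul_eq_zero.mp h3).resolve_right hb0'⟩
  · rw [Rform_equil hR hL hu0 b hη hd]
    have e1 : -w + P ⁅(u : 𝔸), ((b : m) : 𝔸)⁆ = 0 := by rw [← hw]; simp
    have e2 : D2 L u (0 : m) 0 = 0 := by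
      have := D2_smul hs hu0 0 (0 : m) 0
      simpa using this
    have e3 : D1 L u (P ⁅((b : m) : 𝔸), ⁅(u : 𝔸), ((b : m) : 𝔸)⁆⁆) = lam * Q (w : 𝔸) w := by
      rw [← hwe, (hmin _ (hqp b hbq w hwp).1).1, (hqp b hbq w hwp).2,
        ← Qinv u (hg u) b (hg b) w (hg w), ← hwe]
    rw [e1, e2, ← hw, e3]
    have := (hmin w hwp).2
    linarith

end general

end Pool.Agent.helper8.Fin
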